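import Mathlib
import Pool.Agent.N751.FR.Stm2
import Pool.Agent.N751.FR.Loc

/-!
# Project FR (helper751): the minimal discriminant at a prime of potentially good reduction
(helper441)
-/

set_option autoImplicit false

namespace Pool.Agent.N441.FR

open NumberField IsDedekindDomain Pool.Agent.N751.FR
open Pool.Agent.Y733.FF (discExp SemiAt IntAt short disc_ne int_disc disc_good j_change)
open Pool.Agent.TH876.FH (GoodAt)
open WithZero (exp exp_le_exp exp_zero exp_add exp_ne_zero)

section

variable {M : Type} [Field M] [NumberField M]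

/-- elements of any given order -/
theorem elt (w : HeightOneSpectrum (𝓞 M)) (k : ℤ) :
    ∃ u : M, u ≠ 0 ∧ w.valuation M u = exp (-k) := by
  obtain ⟨p, hp⟩ := w.valuation_exists_uniformizer M
  have hp' : w.valuation M p = exp (-1 : ℤ) := hp
  have hp0 : p ≠ 0 := by
    rintro rfl
    rw [map_zero] at hp'
    exact exp_ne_zero hp'.symm
  refine ⟨p ^ k, zpow_ne_zero _ hp0, ?_⟩
  rw [map_zpow₀, hp', ← WithZero.exp_zsmul]
  congr 1
  simp

/-- the order of an element -/
theorem ord (w : HeightOneSpectrum (𝓞 M)) {x : M} (hx : x ≠ 0) :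
    ∃ t : ℤ, w.valuation M x = exp (-t) := by
  have h1 : w.valuation M x ≠ 0 := (Valuation.ne_zero_iff _).2 hx
  exact ⟨-WithZero.log (w.valuation M x), by rw [neg_neg, WithZero.exp_log h1]⟩

/-- the minimal discriminant of a scaled short equation -/
theorem disc_int (w : HeightOneSpectrum (𝓞 M)) (E : WeierstrassCurve M)
    (h48 : w.valuation M 48 = 1) (h864 : w.valuation M 864 = 1) (_hE : E.Δ ≠ 0)
    (t s D k : ℤ) (h4 : w.valuation M E.c₄ = exp (-t)) (h6 : w.valuation M E.c₆ = exp (-s))
    (hD : w.valuation M E.Δ = exp (-D)) (k4 : 4 * k ≤ t) (k6 : 6 * k ≤ s) :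
    (discExp w E : ℤ) ≤ D - 12 * k := by
  obtain ⟨u, hu0, hu⟩ := elt w k
  obtain ⟨C, c1, c2, c3, c4, c6, c7⟩ := short E (Units.mk0 u hu0)
  have e : (((Units.mk0 u hu0)⁻¹ : Mˣ) : M) = u⁻¹ := rfl
  rw [e] at c4 c6 c7
  have hui : w.valuation M u⁻¹ = exp k := by
    rw [map_inv₀, hu, ← WithZero.exp_neg, neg_neg]
  have hI : IntAt w (C • E) := by
    refine ⟨?_, ?_, ?_, ?_, ?_⟩
    · rw [c1, map_zero]; exact zero_le_one
    · rw [c2, map_zero]; exact zero_le_one
    · rw [c3, map_zero]; exact zero_le_one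
    · rw [c4, map_mul, Valuation.map_neg, map_div₀, h48, div_one, h4, map_pow, hui,
        ← WithZero.exp_nsmul, ← exp_add, ← exp_zero, exp_le_exp]
      simp only [nsmul_eq_mul]
      push_cast
      omega
    · rw [c6, map_mul, Valuation.map_neg, map_div₀, h864, div_one, h6, map_pow, hui,
        ← WithZero.exp_nsmul, ← exp_add, ← exp_zero, exp_le_exp]
      simp only [nsmul_eq_mul]
      push_cast
      omega
  have hv : w.valuation M (C • E).Δ = exp (-(D - 12 * k)) := by
    rw [c7, map_mul, map_pow, hui, hD, ← WithZero.exp_nsmul, ← exp_add]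
    congr 1
    simp only [nsmul_eq_mul]
    push_cast
    ring
  have h0 : 0 ≤ D - 12 * k := by
    have h1 := (int_disc w _ hI).1
    rw [hv, ← exp_zero, exp_le_exp] at h1
    omega
  obtain ⟨m, hm⟩ := Int.eq_ofNat_of_zero_le h0
  have h1 : discExp w E ≤ m := Nat.sInf_le ⟨C, hI, by rw [hv, hm]⟩
  omega

theorem unit_of (w : HeightOneSpectrum (𝓞 M)) (h6 : w.valuation M 6 = 1) :
    w.valuation M 2 = 1 ∧ w.valuation M 3 = 1 := by
  have vn : ∀ n : ℕ, w.valuation M ((n : ℕ) : M) ≤ 1 := by
    intro n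
    have := w.valuation_le_one (K := M) ((n : ℕ) : 𝓞 M)
    simpa using this
  have n2 := vn 2
  have n3 := vn 3
  push_cast at n2 n3
  have e : (6 : M) = 2 * 3 := by norm_num
  rw [e, map_mul] at h6
  refine ⟨le_antisymm n2 ?_, le_antisymm n3 ?_⟩
  · rw [← h6]
    exact mul_le_of_le_one_right' n3
  · rw [← h6]
    exact mul_le_of_le_one_left' n2

end

theorem t : StmTypD := by
  intro M _ _ w E hE h6 a c ha hc
  obtain ⟨v2, v3⟩ := unit_of w h6
  have v48 : w.valuation M 48 = 1 := by
    rw [show (48 : M) = 2 ^ 4 * 3 by norm_num, map_mul, map_pow, v2, v3, one_pow, one_mul]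
  have v864 : w.valuation M 864 = 1 := by
    rw [show (864 : M) = 2 ^ 5 * 3 ^ 3 by norm_num, map_mul, map_pow, map_pow, v2, v3, one_pow,
      one_pow, one_mul]
  have v1728 : w.valuation M 1728 = 1 := by
    rw [show (1728 : M) = 2 ^ 6 * 3 ^ 3 by norm_num, map_mul, map_pow, map_pow, v2, v3, one_pow,
      one_pow, one_mul]
  have hrel := E.c_relation
  have hj1728 : E.c₄ ^ 3 / E.Δ - 1728 = E.c₆ ^ 2 / E.Δ := by
    rw [div_sub' hE]
    congr 1
    linear_combination (-1 : M) * hrel
  -- semistable primes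
  have hsemi : SemiAt w E → GoodAt w E := by
    rintro ⟨C, h1, h2, h3, h4, h6, h7⟩
    refine ⟨C, h1, h2, h3, h4, h6, ?_⟩
    rcases h7 with h7 | h7
    · exact h7
    · have k1 := (int_disc w _ ⟨h1, h2, h3, h4, h6⟩).1
      have k2 := ha
      rw [j_change E hE C, map_div₀, map_pow, h7, one_pow, one_div] at k2
      refine le_antisymm k1 ?_
      have k3 : (w.valuation M (C • E).Δ)⁻¹ ≤ 1 := by
        rw [k2, ← exp_zero, exp_le_exp]
        omega
      have k4 : 0 < w.valuation M (C • E).Δ := by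
        rw [Valuation.pos_iff]
        exact disc_ne E hE C
      exact (inv_le_one₀ k4).1 k3
  have h0 : SemiAt w E → muA a c = 0 := by
    intro hs
    obtain ⟨x, y, -, hx, hy⟩ := good_j w E hE (hsemi hs)
    rw [ha] at hx
    rw [hc] at hy
    have hx0 : x ≠ 0 := by
      rintro rfl
      rw [map_zero, zero_pow (by norm_num)] at hx
      exact exp_ne_zero hx
    have hy0 : y ≠ 0 := by
      rintro rfl
      rw [map_zero, zero_pow (by norm_num)] at hy
      exact exp_ne_zero hy
    obtain ⟨p, hp⟩ := ord w hx0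
    obtain ⟨q, hq⟩ := ord w hy0
    rw [hp, ← WithZero.exp_nsmul] at hx
    rw [hq, ← WithZero.exp_nsmul] at hy
    have e1 := WithZero.exp_injective hx
    have e2 := WithZero.exp_injective hy
    simp only [nsmul_eq_mul] at e1 e2
    push_cast at e1 e2
    unfold muA
    rw [if_neg (by omega), if_neg (by omega), if_neg (by omega)]
  refine ⟨?_, fun h1 h2 => h1 (h0 h2), fun h1 => disc_good w E (hsemi h1)⟩
  -- the orders
  have hc4 : E.c₄ ≠ 0 := by
    intro h
    rw [h, zero_pow (by norm_num), zero_div, map_zero] at ha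
    exact exp_ne_zero ha.symm
  have hc6 : E.c₆ ≠ 0 := by
    intro h
    rw [hj1728, h, zero_pow (by norm_num), zero_div, map_zero] at hc
    exact exp_ne_zero hc.symm
  obtain ⟨x, hx⟩ := ord w hc4
  obtain ⟨s, hs⟩ := ord w hc6
  obtain ⟨D, hD⟩ := ord w hE
  have e1 : D = 3 * x - a := by
    have h1 := ha
    rw [map_div₀, map_pow, hx, hD, ← WithZero.exp_nsmul, ← WithZero.exp_sub] at h1
    have h2 := WithZero.exp_injective h1
    simp only [nsmul_eq_mul] at h2
    push_cast at h2
    omega
  have e2 : D = 2 * s - c := by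
    have h1 := hc
    rw [hj1728, map_div₀, map_pow, hs, hD, ← WithZero.exp_nsmul, ← WithZero.exp_sub] at h1
    have h2 := WithZero.exp_injective h1
    simp only [nsmul_eq_mul] at h2
    push_cast at h2
    omega
  have e3 : a = 0 ∨ c = 0 := by
    by_contra hcon
    push Not at hcon
    have h1 : w.valuation M ((E.c₄ ^ 3 / E.Δ) - (E.c₄ ^ 3 / E.Δ - 1728)) < 1 := by
      refine (Valuation.map_sub _ _ _).trans_lt (max_lt ?_ ?_)
      · rw [ha, ← exp_zero, WithZero.exp_lt_exp]
        omega
      · rw [hc, ← exp_zero, WithZero.exp_lt_exp]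
        omega
    rw [sub_sub_cancel, v1728] at h1
    exact lt_irrefl _ h1
  rcases e3 with e3 | e3
  · have h1 := disc_int w E v48 v864 hE x s D (x / 4) hx hs hD (by omega) (by omega)
    unfold muA
    split_ifs <;> omega
  · have h1 := disc_int w E v48 v864 hE x s D (s / 6) hx hs hD (by omega) (by omega)
    unfold muA
    split_ifs <;> omega

end Pool.Agent.N441.FR
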